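import Pool.Agent.J4H33.R4

/-!
# Primes near a few multiples of the elements of an arbitrary set: a law of large numbers

Let `w` be ANY weight function on the positive integers up to `N`, `0 ≤ w ≤ 1`, with sum at least `N / D`, for example the
indicator function of a set `Q` of integers which lie in long prime gaps. Let `M`, `H` be powers of `log N`.

For all finite sets `A` of primes in `[β M, M]` but few (a small set of primes and a small set of pairs of primes are to be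
avoided), the number of primes in the `|A|` windows `(a n - H, a n)`, `a ∈ A`, is within a factor `1 + O(η)` of its expected value
`|A| H / log N` for all the weighted `n` but a part of at most `(δ + C / |A|) / η ^ 2`. So already for a large constant number of
multipliers nearly all elements `n` of `Q` have primes in the windows `(a n - H, a n)`, `a ∈ A`, in about the expected number,
although `Q` is arbitrary, and may have the density `(log N) ^ (- d)`. There is no exceptional `N`.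

Proof. The mean over `n` for a single multiplier is the theorem `MP_b09185_nt/MultiplesOfAnySet` for all multipliers but few. If it
is applied to the weights `w n * #primes in (a n - H, a n)`, divided by their maximum, one gets the second moments for all pairs of
different multipliers `a, b` but few. For two equal multipliers one needs an upper bound of the right order, for all multipliers
but few and for the arbitrary weights: this comes from the variance of an upper bound sieve for prime pairs over the dilates.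
-/

set_option autoImplicit false

namespace Pool.Agent.Results.MP_7ba156_nt.FewMultiplesLaw

open Finset

/-- the primes in the open interval `(x - H, x)` -/
noncomputable def window (H x : ℝ) : Finset ℕ := (Icc 1 ⌊x⌋₊).filter (fun p => p.Prime ∧ x - H < p ∧ (p : ℝ) < x)

/-- the number of primes in the windows `(a n - H, a n)`, `a ∈ A`, divided by its expected value `|A| H / log N` -/
noncomputable def ratio (A : Finset ℕ) (H N : ℝ) (n : ℕ) : ℝ :=
  (∑ a ∈ A, ((window H ((a : ℝ) * n)).card : ℝ)) / (A.card * (H / Real.log N))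

theorem result : ∃ C : ℝ, 0 < C ∧ ∀ γ ε ρ β δ : ℝ, 0 < γ → 0 < ε → γ + ε < 1 / 3 → 0 < ρ → 0 < β → 0 < δ →
    ∃ t N₀ : ℝ, 0 < t ∧ ∀ N : ℝ, N₀ ≤ N → ∀ M D : ℝ, 1 ≤ D → 0 < M → D * Real.log N ^ 6 ≤ M ^ γ → M ≤ N ^ t →
      ∀ w : ℕ → ℝ, (∀ n, 0 ≤ w n) → (∀ n, w n ≤ 1) → N / D ≤ ∑ n ∈ Icc 1 ⌊N⌋₊, w n →
      ∃ (B₁ : Finset ℕ) (B₂ : Finset (ℕ × ℕ)), (B₁.card : ℝ) ≤ M ^ (1 - ε) * Real.log N ^ 3 ∧
        (B₂.card : ℝ) ≤ M ^ (2 - ε) * Real.log N ^ 3 ∧
        ∀ A : Finset ℕ, A.Nonempty → (∀ a ∈ A, a.Prime ∧ β * M ≤ (a : ℝ) ∧ (a : ℝ) ≤ M) →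
          (∀ a ∈ A, a ∉ B₁) → (∀ a ∈ A, ∀ b ∈ A, a ≠ b → (a, b) ∉ B₂) → ∀ H : ℝ, M ≤ H → H ≤ N ^ (1 - ρ) →
          ∑ n ∈ Icc 1 ⌊N⌋₊, w n * (ratio A H N n - 1) ^ 2 ≤ (δ + C / A.card) * ∑ n ∈ Icc 1 ⌊N⌋₊, w n ∧
          ∀ η : ℝ, 0 < η → ∑ n ∈ Icc 1 ⌊N⌋₊ with η ≤ |ratio A H N n - 1|, w n ≤
            (δ + C / A.card) / η ^ 2 * ∑ n ∈ Icc 1 ⌊N⌋₊, w n := by
  obtain ⟨C, hC, h⟩ := Pool.Agent.J4H33.DU.lln
  refine ⟨C, hC, fun γ ε ρ β δ hγ hε hcond hρ hβ hδ => ?_⟩
  obtain ⟨t, N₀, ht, h⟩ := h γ ε ρ β δ hγ hε hcond hρ hβ hδ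
  refine ⟨t, N₀, ht, fun N hN M D hD hM h1 h2 w hw0 hw1 hw => ?_⟩
  obtain ⟨B₁, B₂, hB₁, hB₂, h3⟩ := h N hN M D hD hM h1 h2 w hw0 hw1 hw
  refine ⟨B₁, B₂, hB₁, hB₂, fun A hA hAP hA1 hA2 H hH1 hH2 => ?_⟩
  have h4 : ∑ n ∈ Icc 1 ⌊N⌋₊, w n * (ratio A H N n - 1) ^ 2 ≤ (δ + C / A.card) * ∑ n ∈ Icc 1 ⌊N⌋₊, w n :=
    h3 A hA (fun a ha => ⟨(hAP a ha).1, (hAP a ha).2.1, (hAP a ha).2.2, hA1 a ha⟩) hA2 H hH1 hH2
  refine ⟨h4, fun η hη => ?_⟩
  have h5 : η ^ 2 * ∑ n ∈ Icc 1 ⌊N⌋₊ with η ≤ |ratio A H N n - 1|, w n ≤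
      ∑ n ∈ Icc 1 ⌊N⌋₊, w n * (ratio A H N n - 1) ^ 2 := by
    rw [mul_sum]
    refine le_trans (sum_le_sum (f := fun n => η ^ 2 * w n) (g := fun n => w n * (ratio A H N n - 1) ^ 2) ?_)
      (sum_le_sum_of_subset_of_nonneg (filter_subset _ _) (fun n _ _ => mul_nonneg (hw0 n) (sq_nonneg _)))
    intro n hn
    have h6 := (mem_filter.1 hn).2
    have h7 : η ^ 2 ≤ (ratio A H N n - 1) ^ 2 := by
      rw [← sq_abs (ratio A H N n - 1)]
      exact pow_le_pow_left₀ hη.le h6 2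
    calc η ^ 2 * w n = w n * η ^ 2 := mul_comm _ _
      _ ≤ w n * (ratio A H N n - 1) ^ 2 := mul_le_mul_of_nonneg_left h7 (hw0 n)
  have h8 : 0 < η ^ 2 := by positivity
  rw [div_mul_eq_mul_div, le_div_iff₀ h8, mul_comm]
  exact h5.trans h4

end Pool.Agent.Results.MP_7ba156_nt.FewMultiplesLaw
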