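import Pool.Agent.J4H33.W9

/-!
# A positive proportion of the dilates by an arbitrary dense set of small integers has a prime nearby

Let `A` be an ARBITRARY set of at least `α M` positive integers up to `M`, where `M` may be as small as a power (depending on
`α` only) of `log X` and as large as a power `X ^ θ₁`, `θ₁ < 1`. Then for every real `y` in `(0, X / M]` outside at most
`X / (H₁ D)` intervals of length `H₁ / M` (`H₁` a constant) the following holds for ALL `H ≥ H₁` simultaneously: for at least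
`c₀ min (1, H / log X) |A|` of the `a ∈ A` there is a prime in `(a y - H, a y)`, where `c₀ > 0` depends on `θ₁` only: not on the
density `α` (second part). The set `A` may be sparse, `|A| ≥ M ^ (1 - η / 24)`, if every element of `A` has a prime factor
`≥ M ^ η` (first part).

Proof: write `a = q b` with a large prime `q`; for most `b` the set of the `q` is rich enough for the second moment method for
sparse sets of primes (`Pool.Agent.J4H33.W.positive`: the mean, and the variance over the dilates of an upper bound sieve for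
pairs of primes), and the exceptional sets of the different `b` are combined with weights. The integers without a large prime
factor are few.
-/

set_option autoImplicit false

namespace Pool.Agent.Results.MP_7ba156_nt.PrimesNearDenseDilates

open Finset

open Classical in
theorem result (θ₁ : ℝ) (hθ₁ : 0 < θ₁) (hθ₁' : θ₁ < 1) : ∃ c₀ : ℝ, 0 < c₀ ∧
    (∀ β η : ℝ, 0 < β → 0 < η →
      ∃ s H₁ X₀ : ℝ, 0 < s ∧ 1 ≤ H₁ ∧ ∀ X : ℝ, X₀ ≤ X → ∀ M D : ℝ, 1 ≤ D → D ≤ X ^ s →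
        D * Real.log X ^ 5 ≤ M ^ (η / 12) → 0 < M → M ≤ X ^ θ₁ →
        ∀ A : Finset ℕ, (∀ a ∈ A, β * M ≤ (a : ℝ) ∧ (a : ℝ) ≤ M ∧ ∃ q : ℕ, q.Prime ∧ q ∣ a ∧ M ^ η ≤ q) →
        M ^ (1 - η / 24) ≤ (A.card : ℝ) →
        ∃ U : Finset ℝ, (U.card : ℝ) ≤ X / (H₁ * D) ∧ ∀ y : ℝ, 0 < y → y ≤ X / M →
          (∀ u ∈ U, ¬ (u ≤ y ∧ y ≤ u + H₁ / M)) →
          ∀ H : ℝ, H₁ ≤ H → c₀ * min 1 (H / Real.log X) * A.card ≤
            ((A.filter (fun a : ℕ => ∃ p : ℕ, p.Prime ∧ (a : ℝ) * y - H < p ∧ (p : ℝ) < a * y)).card : ℝ)) ∧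
    (∀ α : ℝ, 0 < α →
      ∃ c s H₁ X₀ : ℝ, 0 < c ∧ 0 < s ∧ 1 ≤ H₁ ∧ ∀ X : ℝ, X₀ ≤ X → ∀ M D : ℝ, 1 ≤ D → D ≤ X ^ s →
        D * Real.log X ^ 5 ≤ M ^ c → 0 < M → M ≤ X ^ θ₁ →
        ∀ A : Finset ℕ, (∀ a ∈ A, 1 ≤ a ∧ (a : ℝ) ≤ M) → α * M ≤ (A.card : ℝ) →
        ∃ U : Finset ℝ, (U.card : ℝ) ≤ X / (H₁ * D) ∧ ∀ y : ℝ, 0 < y → y ≤ X / M →
          (∀ u ∈ U, ¬ (u ≤ y ∧ y ≤ u + H₁ / M)) →
          ∀ H : ℝ, H₁ ≤ H → c₀ * min 1 (H / Real.log X) * A.card ≤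
            ((A.filter (fun a : ℕ => ∃ p : ℕ, p.Prime ∧ (a : ℝ) * y - H < p ∧ (p : ℝ) < a * y)).card : ℝ)) := by
  obtain ⟨c₁, hc₁, h1⟩ := Pool.Agent.J4H33.W.posLF θ₁ hθ₁ hθ₁'
  obtain ⟨c₂, hc₂, h2⟩ := Pool.Agent.J4H33.W.posDense θ₁ hθ₁ hθ₁'
  have hwin : ∀ (A : Finset ℕ) (y H : ℝ), A.filter (fun a : ℕ => ∃ p : ℕ, p.Prime ∧ (a : ℝ) * y - H < p ∧ (p : ℝ) < a * y) =
      A.filter (fun a : ℕ => (Pool.Agent.J4H33.W.win (a * y) H).Nonempty) := by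
    intro A y H
    apply filter_congr
    intro a _
    constructor
    · rintro ⟨p, hp⟩
      exact ⟨p, (Pool.Agent.J4H33.W.mem_win _ _ _).2 hp⟩
    · rintro ⟨p, hp⟩
      exact ⟨p, (Pool.Agent.J4H33.W.mem_win _ _ _).1 hp⟩
  have hmin : ∀ X H : ℝ, 1 ≤ X → 0 ≤ H → 0 ≤ min 1 (H / Real.log X) := fun X H hX hH =>
    le_min zero_le_one (div_nonneg hH (Real.log_nonneg hX))
  refine ⟨min c₁ c₂, lt_min hc₁ hc₂, fun β η hβ hη => ?_, fun α hα => ?_⟩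
  · obtain ⟨s, H₁, X₀, hs, hH₁, h⟩ := h1 β η hβ hη
    refine ⟨s, H₁, max 1 X₀, hs, hH₁, fun X hX M D a1 a2 a3 a4 a5 A a6 a7 => ?_⟩
    obtain ⟨U, hU1, hU2⟩ := h X ((le_max_right _ _).trans hX) M D a1 a2 a3 a4 a5 A a6 a7
    refine ⟨U, hU1, fun y b1 b2 b3 H b4 => ?_⟩
    rw [hwin]
    refine le_trans ?_ (hU2 y b1 b2 b3 H b4)
    have h3 := hmin X H ((le_max_left _ _).trans hX) (by linarith)
    exact mul_le_mul_of_nonneg_right (mul_le_mul_of_nonneg_right (min_le_left _ _) h3) (Nat.cast_nonneg _)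
  · obtain ⟨c, s, H₁, X₀, hc, hs, hH₁, h⟩ := h2 α hα
    refine ⟨c, s, H₁, max 1 X₀, hc, hs, hH₁, fun X hX M D a1 a2 a3 a4 a5 A a6 a7 => ?_⟩
    obtain ⟨U, hU1, hU2⟩ := h X ((le_max_right _ _).trans hX) M D a1 a2 a3 a4 a5 A a6 a7
    refine ⟨U, hU1, fun y b1 b2 b3 H b4 => ?_⟩
    rw [hwin]
    refine le_trans ?_ (hU2 y b1 b2 b3 H b4)
    have h3 := hmin X H ((le_max_left _ _).trans hX) (by linarith)
    exact mul_le_mul_of_nonneg_right (mul_le_mul_of_nonneg_right (min_le_right _ _) h3) (Nat.cast_nonneg _)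

end Pool.Agent.Results.MP_7ba156_nt.PrimesNearDenseDilates
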