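import Pool.Agent.J4H33.G9

/-!
# Primes below the points `x / a ^ q`, for arbitrary sparse sets of primes `a`, and the numbers `a ^ q * p` in short intervals

Let `q > 0` be a real number and let `A` be an ARBITRARY set of at least `M ^ (1 - ε)` primes in `[β M, M]`, where `M` may be as
small as `(log X) ^ (3 + κ)` and as large as a power of `X`. Then for every real `x` in `(0, X]` outside at most `X / (h₀ D)`
intervals of length `h₀`, the following holds for ALL lengths `h` with `h₀ ≤ h ≤ X ^ (1 - ρ)` simultaneously: the number of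
pairs `(a, p)`, `a ∈ A`, `p` prime, with `x - h < a ^ q * p < x` is `(1 + O(δ))` times its expected value. For `q = 1`:
every interval `(x - h, x)` contains the expected number of products `a p` of two primes, the first one in `A`. In terms of
gaps between primes: the intervals `((x - h) / a ^ q, x / a ^ q)` contain, in total over `a ∈ A`, the expected number of
primes, for `h₀ / M ^ q` as small as `c log X`, or even a constant if `M ≥ (log X) ^ (6 + κ)`.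
-/

set_option autoImplicit false

namespace Pool.Agent.Results.MP_7ba156_nt.ProductsWithSparsePrimes

open Finset

/-- the number of primes `p` with `x - h < a ^ q * p < x` -/
noncomputable def count (q h x : ℝ) (a : ℕ) : ℕ :=
  Set.ncard {p : ℕ | p.Prime ∧ x - h < (a : ℝ) ^ q * p ∧ (a : ℝ) ^ q * p < x}

/-- the expected number of pairs `(a, p)`, `a ∈ A`, `p` prime, with `x - h < a ^ q * p < x` -/
noncomputable def expected (q h x : ℝ) (A : Finset ℕ) : ℝ :=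
  ∑ a ∈ A, (h / (a : ℝ) ^ q) / Real.log (x / (a : ℝ) ^ q)

theorem result (q γ ε t ρ β δ : ℝ) (hq : 0 < q) (hγ : 0 < γ) (hε : 0 < ε) (ht : 0 < t) (htq : t * (1 + q) < 1)
    (hcond : γ + (1 + t / (1 - q * t)) * ε < 1 / 3) (hρ : 0 < ρ) (hβ : 0 < β) (hδ : 0 < δ) :
    ∃ s H₁ X₀ : ℝ, 0 < s ∧ ∀ X : ℝ, X₀ ≤ X → ∀ M D h₀ : ℝ, 1 ≤ D → D ≤ X ^ s → H₁ * M ^ q ≤ h₀ →
      D * Real.log X * max 1 (M ^ q * Real.log X / h₀) ≤ M ^ γ → 0 < M → M ≤ X ^ t →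
      ∀ A : Finset ℕ, (∀ a ∈ A, a.Prime ∧ β * M ≤ (a : ℝ) ∧ (a : ℝ) ≤ M) → M ^ (1 - ε) ≤ (A.card : ℝ) →
      ∃ U : Finset ℝ, (U.card : ℝ) ≤ X / (h₀ * D) ∧ ∀ x : ℝ, 0 < x → x ≤ X →
        (∀ u ∈ U, ¬ (u ≤ x ∧ x ≤ u + h₀)) →
        ∀ h : ℝ, h₀ ≤ h → h ≤ X ^ (1 - ρ) →
          M ^ q < x ∧ |∑ a ∈ A, (count q h x a : ℝ) - expected q h x A| ≤ δ * expected q h x A := by
  obtain ⟨δ₁, hδ₁⟩ : ∃ δ₁, δ₁ = min δ 1 := ⟨_, rfl⟩
  have hδ₁0 : 0 < δ₁ := by rw [hδ₁]; exact lt_min hδ one_pos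
  have hδ₁1 : δ₁ ≤ δ := by rw [hδ₁]; exact min_le_left _ _
  have hδ₁2 : δ₁ ≤ 1 := by rw [hδ₁]; exact min_le_right _ _
  obtain ⟨β₁, hβ₁⟩ : ∃ β₁, β₁ = min β 1 := ⟨_, rfl⟩
  have hβ₁0 : 0 < β₁ := by rw [hβ₁]; exact lt_min hβ one_pos
  have hβ₁1 : β₁ ≤ β := by rw [hβ₁]; exact min_le_left _ _
  have hβ₁2 : β₁ ≤ 1 := by rw [hβ₁]; exact min_le_right _ _
  obtain ⟨s, H₁, X₀, hs, hmain⟩ := Pool.Agent.J4H33.prodw q γ ε t ρ β₁ δ₁ hq hγ hε ht htq hcond hρ hβ₁0 hβ₁2 hδ₁0 hδ₁2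
  refine ⟨s, H₁, X₀, hs, fun X hX M D h₀ hD1 hDs hh₀ hM hM0 hMX A hA1 hA2 => ?_⟩
  obtain ⟨U, hU1, hU2⟩ := hmain X hX M D h₀ hD1 hDs hh₀ hM hM0 hMX A (fun a ha => ⟨(hA1 a ha).1,
    (mul_le_mul_of_nonneg_right hβ₁1 hM0.le).trans (hA1 a ha).2.1, (hA1 a ha).2.2⟩) hA2
  refine ⟨U, hU1, fun x hx0 hxX hxU h hh1 hh2 => ?_⟩
  obtain ⟨g1, g2⟩ := hU2 x hx0 hxX hxU h hh1 hh2
  refine ⟨g1, ?_⟩
  have e : h * ∑ a ∈ A, Pool.Agent.J4H33.wq q x a = expected q h x A := by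
    unfold expected Pool.Agent.J4H33.wq
    rw [mul_sum]
    apply sum_congr rfl
    intro a _
    rw [div_div, mul_one_div]
  have e2 : ∑ a ∈ A, Pool.Agent.J4H33.cntq q h x a = ∑ a ∈ A, (count q h x a : ℝ) := rfl
  rw [e, e2] at g2
  refine g2.trans ?_
  apply mul_le_mul_of_nonneg_right hδ₁1
  have h0 := (abs_nonneg _).trans g2
  by_contra hcon
  push Not at hcon
  have := mul_neg_of_pos_of_neg hδ₁0 hcon
  linarith

end Pool.Agent.Results.MP_7ba156_nt.ProductsWithSparsePrimes
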