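import Pool.Agent.J4H33.Q3

/-!
# Primes near several multiples of the elements of an arbitrary set

Let `Q` be ANY set of at least `N / D` positive integers up to `N` (for example integers which lie in long prime gaps). For all
`k`-tuples `(a_1, …, a_k)` of primes in `[β M, M]` but at most `k M ^ (k - ε)` of them, at least `c ^ k |Q|` of the elements `n`
of `Q` have the property that each of the intervals `(a_i n - H, a_i n)`, `i ≤ k`, contains a prime. Here `M` and `H` may be powers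
of `log N`, `k` may grow with `N`, and there is no exceptional `N`.

Proof. For a set `A` of at least `M ^ (1 - ε)` primes and all real `y ≤ N` outside few short intervals, a positive proportion of
the `a ∈ A` has a prime in `(a y - H, a y)`, `H ≥ log N`: the mean over `A` of the number of primes in these windows is the theorem
`MP_711652_nt/SparseDilates`, the second moment is bounded by the variance over the dilates of the counting function of a
Brun-Hooley upper bound sieve for prime pairs. This is applied to the set `A` of those multipliers `a` for which fewer than `c |Q|`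
of the elements `n` of `Q` have a prime in `(a n - H, a n)`; so there are few of them. Then `Q` is replaced by the set of these `n`,
and so on.
-/

set_option autoImplicit false

namespace Pool.Agent.Results.MP_7ba156_nt.SimultaneousMultiples

open Finset

theorem result (θ : ℝ) (hθ : 0 < θ) : ∃ c : ℝ, 0 < c ∧ c < 1 ∧ ∀ γ ε ρ β : ℝ, 0 < γ → 0 < ε → γ + (1 + θ) * ε < 1 / 3 →
    0 < ρ → 0 < β →
    ∃ s N₀ : ℝ, 0 < s ∧ ∀ N : ℝ, N₀ ≤ N → ∀ (k : ℕ) (M D H : ℝ), 1 ≤ D → 0 < H → H ≤ N ^ (1 - ρ) → 0 < M → M ≤ N ^ θ →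
      D * (1 / c) ^ k * max 1 (M / H) ≤ N ^ s → D * (1 / c) ^ k * max 1 (M / H) * Real.log N ^ 5 ≤ M ^ γ →
      ∀ Q : Finset ℕ, (∀ n ∈ Q, 1 ≤ n ∧ (n : ℝ) ≤ N) → N / D ≤ (Q.card : ℝ) →
      ∃ B : Finset (List ℕ), (B.card : ℝ) ≤ k * M ^ (k - ε) ∧
        ∀ A : List ℕ, A.length = k → (∀ a ∈ A, a.Prime ∧ β * M ≤ (a : ℝ) ∧ (a : ℝ) ≤ M) → A ∉ B →
          c ^ k * Q.card ≤ ({n ∈ (Q : Set ℕ) | ∀ a ∈ A, ∃ p : ℕ, p.Prime ∧ (a : ℝ) * n - H < p ∧ (p : ℝ) < a * n}.ncard : ℝ) := by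
  classical
  obtain ⟨c, hc0, hc1, h⟩ := Pool.Agent.J4H33.W.tuples_pos θ hθ
  refine ⟨c, hc0, by linarith, fun γ ε ρ β hγ hε hcond hρ hβ => ?_⟩
  obtain ⟨s, N₀, hs, h⟩ := h γ ε ρ β hγ hε hcond hρ hβ
  refine ⟨s, N₀, hs, fun N hN k M D H hD hH hHN hM hMN h1 h2 Q hQ hQc => ?_⟩
  obtain ⟨B, hB, hB'⟩ := h N hN M H hH hM hMN hHN k D hD h1 h2 Q hQ hQc
  refine ⟨B, hB, fun A hA hAP hAB => ?_⟩
  have h3 := hB' A hA hAP hAB
  have e : {n ∈ (Q : Set ℕ) | ∀ a ∈ A, ∃ p : ℕ, p.Prime ∧ (a : ℝ) * n - H < p ∧ (p : ℝ) < a * n} =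
      ((Pool.Agent.J4H33.W.Gall Q H A : Finset ℕ) : Set ℕ) := by
    ext n
    unfold Pool.Agent.J4H33.W.Gall
    rw [coe_filter]
    simp only [Set.mem_ofPred_eq, mem_coe]
    have e1 : ∀ a : ℕ, (∃ p : ℕ, p.Prime ∧ (a : ℝ) * n - H < p ∧ (p : ℝ) < a * n) ↔
        (Pool.Agent.J4H33.W.win ((a : ℝ) * n) H).Nonempty := by
      intro a
      constructor
      · rintro ⟨p, hp⟩
        exact ⟨p, (Pool.Agent.J4H33.W.mem_win _ _ _).2 hp⟩
      · rintro ⟨p, hp⟩
        exact ⟨p, (Pool.Agent.J4H33.W.mem_win _ _ _).1 hp⟩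
    simp only [e1]
  rw [e, Set.ncard_coe_finset]
  exact h3

end Pool.Agent.Results.MP_7ba156_nt.SimultaneousMultiples
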